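import Pool.Agent.SZ.Defs

/-!
# The three inputs of Serre's theorem, as propositions

They are proved in other folders (Weil bound and Bertini-Noether: folder WPl; Dedekind zeta:
SZ/Ded*.lean); here they are only named.
-/

namespace Pool.Agent.SZ

open Pool.Agent.Hhelper85 Polynomial NumberField

/-- The Weil bound for absolutely irreducible plane curves over prime fields. -/
def WeilPlane : Prop :=
  ∀ d D : ℕ, ∃ C : ℝ, ∀ (p : ℕ) [Fact p.Prime] (f : (ZMod p)[X][X]), f.Monic →
    f.natDegree = d → (∀ j, (f.coeff j).natDegree ≤ D * (d - j)) →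
    Irreducible (f.map (mapRingHom (algebraMap (ZMod p) (AlgebraicClosure (ZMod p))))) →
    |(Nat.card {z : ZMod p × ZMod p // f.evalEval z.1 z.2 = 0} : ℝ) - p| ≤ C * √(p : ℝ)

/-- Absolute irreducibility is an open condition. -/
def BertiniNoether : Prop :=
  ∀ (B : Type) [CommRing B] [IsDomain B] (f : B[X][X]), f.Monic → AbsIrr f →
    ∃ b : B, b ≠ 0 ∧ ∀ (k : Type) [Field k] [IsAlgClosed k] (ψ : B →+* k), ψ b ≠ 0 →
      Irreducible (f.map (mapRingHom ψ))

/-- The Dedekind zeta function continues beyond `s = 1`, with a simple pole at `s = 1`. -/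
def DedekindCont : Prop :=
  ∀ (L : Type) [Field L] [NumberField L], ∃ (ε : ℝ) (Z : ℂ → ℂ), 0 < ε ∧
    MeromorphicOn Z {s : ℂ | 1 - ε < s.re} ∧
    (∀ s : ℂ, 1 < s.re → Complex.exp (LZ (𝓞 L) s) = Z s) ∧
    meromorphicOrderAt Z 1 = ((-1 : ℤ) : WithTop ℤ)

end Pool.Agent.SZ
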