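import Pool.Agent.SZ.DimC
import Pool.Agent.SZ.Hyps
import Pool.Agent.CAB.Analytic

/-!
# Analytic lemmas on the sums over all finite fields

`x = (p, n)`, `q = p ^ n`, `pw s x = q ^ {-s} / n`, `pr σ x = q ^ {-σ} / n`.
-/

namespace Pool.Agent.SZ

open Pool.Agent.Hhelper85 Polynomial Pool.Agent.CAB

/-- `pr` is bounded by the power. -/
lemma pr_le_pow (σ : ℝ) (x : Nat.Primes × ℕ) : pr σ x ≤ ((x.1 : ℝ) ^ (-σ)) ^ x.2 := by
  unfold pr
  rcases Nat.eq_zero_or_pos x.2 with h | h
  · rw [h]; simp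
  · apply div_le_self (by positivity)
    exact_mod_cast h

lemma pr_eq_zero (σ : ℝ) {x : Nat.Primes × ℕ} (h : x.2 = 0) : pr σ x = 0 := by
  unfold pr
  rw [h]; simp

/-- Comparison with the sum over the `n`-th powers of the primes, `n ≥ m`. -/
lemma summable_aux {σ : ℝ} (hσ : 0 < σ) {m : ℕ} (hm : 1 < m * σ) {f : Nat.Primes × ℕ → ℝ}
    (h0 : ∀ x, 0 ≤ f x) (h1 : ∀ x : Nat.Primes × ℕ, x.2 < m → f x = 0)
    (h2 : ∀ x : Nat.Primes × ℕ, f x ≤ ((x.1 : ℝ) ^ (-σ)) ^ x.2) : Summable f := by
  let i : Nat.Primes × ℕ → Nat.Primes × ℕ := fun x => (x.1, x.2 + m)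
  have hi : Function.Injective i := by
    rintro ⟨p, a⟩ ⟨q, b⟩ h
    simp only [i, Prod.mk.injEq, add_left_inj] at h
    exact Prod.ext h.1 h.2
  rw [← hi.summable_iff]
  · have hs : Summable fun x : Nat.Primes × ℕ =>
        ((x.1 : ℝ) ^ (-(m * σ))) * ((2 : ℝ) ^ (-σ)) ^ x.2 := by
      refine Summable.mul_of_nonneg (f := fun p : Nat.Primes => (p : ℝ) ^ (-(m * σ)))
        (g := fun n : ℕ => ((2 : ℝ) ^ (-σ)) ^ n) ?_ ?_ ?_ ?_
      · exact Nat.Primes.summable_rpow.mpr (by linarith)
      · exact summable_geometric_of_lt_one (by positivity)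
          (Real.rpow_lt_one_of_one_lt_of_neg (by norm_num) (by linarith))
      · intro p
        simp only [Pi.zero_apply]
        positivity
      · intro n
        simp only [Pi.zero_apply]
        positivity
    refine Summable.of_nonneg_of_le (fun x => h0 _) (fun x => ?_) hs
    have hp : (2 : ℝ) ≤ x.1 := by exact_mod_cast x.1.2.two_le
    refine (h2 _).trans ?_
    simp only [i]
    have e : ((x.1 : ℝ) ^ (-σ)) ^ m = (x.1 : ℝ) ^ (-(m * σ)) := by
      rw [← Real.rpow_natCast, ← Real.rpow_mul (by linarith)]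
      congr 1
      ring
    rw [pow_add, mul_comm, e]
    apply mul_le_mul_of_nonneg_left _ (by positivity)
    apply pow_le_pow_left₀ (by positivity)
    exact Real.rpow_le_rpow_of_nonpos (by norm_num) hp (by linarith)
  · intro x hx
    apply h1
    by_contra hc
    rw [not_lt] at hc
    apply hx
    refine ⟨(x.1, x.2 - m), ?_⟩
    simp only [i, Nat.sub_add_cancel hc]

/-- The sum of the absolute values over all prime powers. Proof: `∑_{p, n ≥ 1} p ^ {-nσ} / n` converges
for `σ > 1` (compare with `∑_m m ^ {-σ}` over prime powers, or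
`∑_p p^{-σ}/(1 - p^{-σ})`); for `n = 0` the term is `0`. -/
theorem summable_pr {σ : ℝ} (hσ : 1 < σ) : Summable fun x : Nat.Primes × ℕ => pr σ x := by
  refine summable_aux (σ := σ) (by linarith) (m := 1) (by simpa using hσ) (fun x => pr_nonneg σ x)
    (fun x hx => pr_eq_zero σ (by omega)) (fun x => pr_le_pow σ x)

/-- The sum over the proper prime powers converges for `σ > 1/2`: `∑_p p ^ {-2σ} / (1 - p ^ {-σ})`. -/
theorem summable_pr_two {σ : ℝ} (hσ : 1 / 2 < σ) :
    Summable fun x : Nat.Primes × ℕ => if x.2 = 1 then 0 else pr σ x := by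
  refine summable_aux (σ := σ) (by linarith) (m := 2) (by push_cast; linarith) (fun x => ?_)
    (fun x hx => ?_) (fun x => ?_)
  · split_ifs
    · exact le_rfl
    · exact pr_nonneg σ x
  · split_ifs with h
    · rfl
    · exact pr_eq_zero σ (by omega)
  · split_ifs
    · positivity
    · exact pr_le_pow σ x

/-- The sum over the powers of the primes dividing `N` converges for `σ > 0`. -/
theorem summable_pr_dvd {σ : ℝ} (hσ : 0 < σ) {N : ℕ} (hN : N ≠ 0) :
    Summable fun x : Nat.Primes × ℕ => if (x.1 : ℕ) ∣ N then pr σ x else 0 := by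
  have hfin : {p : Nat.Primes | (p : ℕ) ∣ N}.Finite := by
    have h1 : {p : Nat.Primes | (p : ℕ) ∣ N} = (fun p : Nat.Primes => (p : ℕ)) ⁻¹' N.divisors := by
      ext p
      simp [hN]
    rw [h1]
    exact Set.Finite.preimage (Set.injOn_of_injective Subtype.val_injective)
      (Finset.finite_toSet _)
  have hs : Summable fun x : Nat.Primes × ℕ =>
      (if (x.1 : ℕ) ∣ N then (1 : ℝ) else 0) * ((2 : ℝ) ^ (-σ)) ^ x.2 := by
    refine Summable.mul_of_nonneg (f := fun p : Nat.Primes => if (p : ℕ) ∣ N then (1 : ℝ) else 0)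
      (g := fun n : ℕ => ((2 : ℝ) ^ (-σ)) ^ n) ?_ ?_ ?_ ?_
    · apply summable_of_hasFiniteSupport
      apply hfin.subset
      intro p hp
      by_contra hc
      apply hp
      exact if_neg hc
    · exact summable_geometric_of_lt_one (by positivity)
        (Real.rpow_lt_one_of_one_lt_of_neg (by norm_num) (by linarith))
    · intro p
      simp only [Pi.zero_apply]
      split_ifs <;> norm_num
    · intro n
      simp only [Pi.zero_apply]
      positivity
  refine Summable.of_nonneg_of_le (fun x => ?_) (fun x => ?_) hs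
  · split_ifs
    · exact pr_nonneg σ x
    · exact le_rfl
  · have hp : (2 : ℝ) ≤ x.1 := by exact_mod_cast x.1.2.two_le
    split_ifs
    · rw [one_mul]
      refine (pr_le_pow σ x).trans ?_
      apply pow_le_pow_left₀ (by positivity)
      exact Real.rpow_le_rpow_of_nonpos (by norm_num) hp (by linarith)
    · simp

/-- A sum of this kind which converges absolutely is holomorphic. Proof: as `differentiableOn_HP` in
CAB/Analytic.lean (locally uniform convergence, `differentiableOn_tsum_of_summable_norm` on half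
planes). -/
theorem differentiableOn_sum {u : Nat.Primes × ℕ → ℂ} {σ₀ : ℝ}
    (h : ∀ σ : ℝ, σ₀ < σ → Summable fun x : Nat.Primes × ℕ => ‖u x‖ * pr σ x) :
    DifferentiableOn ℂ (fun s => ∑' x : Nat.Primes × ℕ, u x * pw s x) {s : ℂ | σ₀ < s.re} := by
  intro s hs
  have hs' : σ₀ < s.re := hs
  obtain ⟨τ, h4, h5⟩ := exists_between hs'
  have hopen : IsOpen {s : ℂ | τ < s.re} := isOpen_lt continuous_const Complex.continuous_re
  have key : DifferentiableOn ℂ (fun s => ∑' x : Nat.Primes × ℕ, u x * pw s x)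
      {s : ℂ | τ < s.re} := by
    apply Complex.differentiableOn_tsum_of_summable_norm (h τ h4)
    · intro x
      exact ((differentiable_pw x).const_mul _).differentiableOn
    · exact hopen
    · intro x w hw
      rw [norm_mul, norm_pw]
      exact mul_le_mul_of_nonneg_left (pr_anti (le_of_lt hw) x) (norm_nonneg _)
  exact ((key s h5).differentiableAt (hopen.mem_nhds h5)).differentiableWithinAt

/-- The points of a finitely generated domain: absolute convergence for `Re s > δ + 1`. -/
theorem FGD.summable {A : Type} [CommRing A] {δ : ℕ} (hA : FGD A δ) {σ : ℝ}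
    (hσ : (δ : ℝ) + 1 < σ) : Summable fun x : Nat.Primes × ℕ => (hN A x : ℝ) * pr σ x := by
  obtain ⟨C, hC⟩ := hA.hN_le
  have hs : Summable fun x : Nat.Primes × ℕ => (C : ℝ) * pr (σ - δ) x :=
    (summable_pr (by linarith)).mul_left _
  refine Summable.of_nonneg_of_le (fun x => mul_nonneg (Nat.cast_nonneg _) (pr_nonneg σ x))
    (fun x => ?_) hs
  by_cases hx : x.2 = 0
  · rw [pr_eq_zero σ hx, mul_zero]
    exact mul_nonneg (Nat.cast_nonneg _) (pr_nonneg _ x)
  · rw [← pow_mul_pr δ σ x, ← mul_assoc]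
    apply mul_le_mul_of_nonneg_right _ (pr_nonneg σ x)
    exact_mod_cast hC x hx

/-- The points of a proper closed subset: absolute convergence for `Re s > δ`. Proof: `FGD.hV_le`;
for `p ∤ N` compare with `pr (σ - δ + 1)`, for `p ∣ N` with `pr (σ - δ)` and `summable_pr_dvd`. -/
theorem FGD.summable_hV {A : Type} [CommRing A] {δ : ℕ} (hA : FGD A δ) {g : A} (hg : g ≠ 0)
    {σ : ℝ} (hσ : (δ : ℝ) < σ) :
    Summable fun x : Nat.Primes × ℕ => (hV A g x : ℝ) * pr σ x := by
  obtain ⟨C, N, hN, hC⟩ := hA.hV_le hg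
  have hs : Summable fun x : Nat.Primes × ℕ => (C : ℝ) * pr (σ + 1 - δ) x +
      (C : ℝ) * (if (x.1 : ℕ) ∣ N then pr (σ - δ) x else 0) :=
    ((summable_pr (by linarith)).mul_left _).add ((summable_pr_dvd (by linarith) hN).mul_left _)
  refine Summable.of_nonneg_of_le (fun x => mul_nonneg (Nat.cast_nonneg _) (pr_nonneg σ x))
    (fun x => ?_) hs
  have hn1 : 0 ≤ (C : ℝ) * pr (σ + 1 - δ) x := mul_nonneg (Nat.cast_nonneg _) (pr_nonneg _ x)
  have hn2 : 0 ≤ (C : ℝ) * pr (σ - δ) x := mul_nonneg (Nat.cast_nonneg _) (pr_nonneg _ x)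
  by_cases hx : x.2 = 0
  · rw [pr_eq_zero σ hx, mul_zero]
    split_ifs
    · exact add_nonneg hn1 hn2
    · rw [mul_zero, add_zero]
      exact hn1
  · obtain ⟨h1, h2⟩ := hC x hx
    split_ifs with hd
    · refine le_trans ?_ (le_add_of_nonneg_left hn1)
      rw [← pow_mul_pr δ σ x, ← mul_assoc]
      apply mul_le_mul_of_nonneg_right _ (pr_nonneg σ x)
      exact_mod_cast h1
    · rw [mul_zero, add_zero, ← pow_mul_pr δ (σ + 1) x, ← mul_assoc]
      have e : pr σ x = ((x.1 : ℝ) ^ x.2) * pr (σ + 1) x := by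
        have h3 := pow_mul_pr 1 (σ + 1) x
        rw [pow_one] at h3
        rw [h3]
        congr 1
        push_cast
        ring
      have h4 : ((x.1 : ℝ) ^ x.2) * (hV A g x : ℝ) ≤ C * ((x.1 : ℝ) ^ x.2) ^ δ := by
        exact_mod_cast h2 hd
      calc (hV A g x : ℝ) * pr σ x = (((x.1 : ℝ) ^ x.2) * (hV A g x : ℝ)) * pr (σ + 1) x := by
            rw [e]; ring
        _ ≤ _ := mul_le_mul_of_nonneg_right h4 (pr_nonneg _ x)

end Pool.Agent.SZ
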