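import Pool.Agent.SZ.Defs

/-!
# Birational comparison of the numbers of points

Write `A ⊆ K`, `E ⊆ K` (through `κA`, `κE`). `E` is generated by finitely many elements, so
`E ⊆ A[1/β]`; in the same way `A ⊆ E[1/γ]`. Write `γ = γ' / β ^ k` and `β = β' / γ ^ l`. Then
`A[1/(β γ')] = E[1/(γ β')]` as subrings of `K` (`BirReg.trans_aux`), and the homomorphisms from this
ring to a field are the homomorphisms from `A` which are nonzero at `β γ'` (`bir_card`).
-/

namespace Pool.Agent.SZ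

open Pool.Agent.Hhelper85 Polynomial Pool.Agent.CAB

section

variable {A E K : Type} [CommRing A] [CommRing E] [Field K]

/-- A common denominator for a finitely generated ring. -/
lemma bir_den [IsDomain A] [Algebra.FiniteType ℤ E] {κA : A →+* K} (hκA : Frc κA)
    (κE : E →+* K) : ∃ β : A, β ≠ 0 ∧ ∀ e : E, ∃ (n : ℕ) (a : A), κA β ^ n * κE e = κA a := by
  classical
  obtain ⟨S, hS⟩ := ‹Algebra.FiniteType ℤ E›.out
  choose p q hq hpq using fun e : E => hκA.frac (κE e)
  refine ⟨∏ e ∈ S, q e, Finset.prod_ne_zero_iff.2 fun e _ => hq e, ?_⟩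
  intro e
  have he : e ∈ Algebra.adjoin ℤ (S : Set E) := by rw [hS]; trivial
  induction he using Algebra.adjoin_induction with
  | mem x hx =>
    refine ⟨1, p x * ∏ e ∈ S.erase x, q e, ?_⟩
    rw [← Finset.mul_prod_erase S q hx, pow_one, map_mul, map_mul, ← hpq]
    ring
  | algebraMap r =>
    refine ⟨0, (r : A), ?_⟩
    simp
  | add x y _ _ hx hy =>
    obtain ⟨n, a, h1⟩ := hx
    obtain ⟨m, b, h2⟩ := hy
    refine ⟨n + m, a * (∏ e ∈ S, q e) ^ m + b * (∏ e ∈ S, q e) ^ n, ?_⟩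
    rw [map_add, map_add, map_mul, map_mul, map_pow, map_pow, ← h1, ← h2]
    ring
  | mul x y _ _ hx hy =>
    obtain ⟨n, a, h1⟩ := hx
    obtain ⟨m, b, h2⟩ := hy
    refine ⟨n + m, a * b, ?_⟩
    rw [map_mul, map_mul, ← h1, ← h2]
    ring

/-- The elements which are regular outside the zero locus of `v`. -/
def BirReg (κE : E →+* K) (v : E) (z : K) : Prop := ∃ (m : ℕ) (e : E), z * κE v ^ m = κE e

lemma BirReg.of (κE : E →+* K) (v : E) (e : E) : BirReg κE v (κE e) := ⟨0, e, by simp⟩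

lemma BirReg.mul {κE : E →+* K} {v : E} {z w : K} (hz : BirReg κE v z) (hw : BirReg κE v w) :
    BirReg κE v (z * w) := by
  obtain ⟨m, e, h1⟩ := hz
  obtain ⟨n, f, h2⟩ := hw
  refine ⟨m + n, e * f, ?_⟩
  rw [map_mul, ← h1, ← h2]
  ring

lemma BirReg.add {κE : E →+* K} {v : E} {z w : K} (hz : BirReg κE v z) (hw : BirReg κE v w) :
    BirReg κE v (z + w) := by
  obtain ⟨m, e, h1⟩ := hz
  obtain ⟨n, f, h2⟩ := hw
  refine ⟨m + n, e * v ^ n + f * v ^ m, ?_⟩
  rw [map_add, map_mul, map_mul, map_pow, map_pow, ← h1, ← h2]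
  ring

lemma BirReg.pow {κE : E →+* K} {v : E} {z : K} (hz : BirReg κE v z) (n : ℕ) :
    BirReg κE v (z ^ n) := by
  induction n with
  | zero =>
    rw [pow_zero, ← map_one κE]
    exact BirReg.of κE v 1
  | succ n ih =>
    rw [pow_succ]
    exact ih.mul hz

lemma BirReg.trans_aux [IsDomain A] [IsDomain E] {κA : A →+* K} {κE : E →+* K}
    (hA : Function.Injective κA) (hE : Function.Injective κE) {β γ' : A} {γ β' : E} {k l : ℕ}
    (hβ : β ≠ 0) (hγ : γ ≠ 0)
    (h2 : ∀ a : A, ∃ (n : ℕ) (e : E), κE γ ^ n * κA a = κE e)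
    (h3 : κA β ^ k * κE γ = κA γ') (h4 : κE γ ^ l * κA β = κE β') {z : K}
    (hz : BirReg κA (β * γ') z) : BirReg κE (γ * β') z := by
  have hβK : κA β ≠ 0 := (map_ne_zero_iff κA hA).2 hβ
  have hγK : κE γ ≠ 0 := (map_ne_zero_iff κE hE).2 hγ
  have hγ'K : κA γ' ≠ 0 := by rw [← h3]; exact mul_ne_zero (pow_ne_zero _ hβK) hγK
  have hβ'K : κE β' ≠ 0 := by rw [← h4]; exact mul_ne_zero (pow_ne_zero _ hγK) hβK
  have r1 : BirReg κE (γ * β') (κE γ)⁻¹ := ⟨1, β', by
    rw [pow_one, map_mul]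
    field_simp⟩
  have r2 : BirReg κE (γ * β') (κE β')⁻¹ := ⟨1, γ, by
    rw [pow_one, map_mul]
    field_simp⟩
  have r3 : ∀ a : A, BirReg κE (γ * β') (κA a) := by
    intro a
    obtain ⟨n, e, h⟩ := h2 a
    have : κA a = κE e * ((κE γ)⁻¹) ^ n := by
      rw [← h, inv_pow]
      field_simp
    rw [this]
    exact (BirReg.of _ _ e).mul (r1.pow n)
  have r4 : BirReg κE (γ * β') (κA β)⁻¹ := by
    have : (κA β)⁻¹ = κE (γ ^ l) * (κE β')⁻¹ := by
      rw [← h4, map_pow]
      field_simp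
    rw [this]
    exact (BirReg.of _ _ _).mul r2
  have r5 : BirReg κE (γ * β') (κA γ')⁻¹ := by
    have : (κA γ')⁻¹ = ((κA β)⁻¹) ^ k * (κE γ)⁻¹ := by
      rw [← h3, inv_pow]
      field_simp
    rw [this]
    exact (r4.pow k).mul r1
  obtain ⟨n, a, h⟩ := hz
  have : z = κA a * ((κA β)⁻¹ * (κA γ')⁻¹) ^ n := by
    rw [← h, map_mul, ← mul_inv, inv_pow]
    field_simp
  rw [this]
  exact (r3 a).mul ((r4.mul r5).pow n)

lemma bir_neg_reg {κE : E →+* K} {v : E} {z : K} (hz : BirReg κE v z) : BirReg κE v (-z) := by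
  obtain ⟨m, e, h1⟩ := hz
  exact ⟨m, -e, by rw [map_neg, ← h1]; ring⟩

/-- The homomorphisms of the localisation. -/
lemma bir_card [IsDomain E] {κE : E →+* K} (hE : Function.Injective κE) {v : E} (hv : v ≠ 0)
    (S : Subring K) (hS : ∀ z, z ∈ S ↔ BirReg κE v z) (k : Type) [Field k] :
    Nat.card (S →+* k) = Nat.card {ψ : E →+* k // ψ v ≠ 0} := by
  have hvK : κE v ≠ 0 := (map_ne_zero_iff κE hE).2 hv
  let f : E →+* S := κE.codRestrict S (fun e => (hS _).2 (BirReg.of _ _ e))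
  have hf : ∀ e, (f e : K) = κE e := fun e => rfl
  let alg : Algebra E S := f.toAlgebra
  have hloc : IsLocalization.Away v S := by
    refine ⟨?_, ?_, ?_⟩
    · rintro ⟨_, n, rfl⟩
      have h1 : IsUnit (f v) := by
        refine isUnit_iff_exists_inv.2 ⟨⟨(κE v)⁻¹, (hS _).2 ⟨1, 1, ?_⟩⟩, ?_⟩
        · rw [pow_one, inv_mul_cancel₀ hvK, map_one]
        · apply Subtype.ext
          show κE v * (κE v)⁻¹ = 1
          exact mul_inv_cancel₀ hvK
      have h2 : algebraMap E S (v ^ n) = (f v) ^ n := map_pow f v n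
      show IsUnit (algebraMap E S (v ^ n))
      rw [h2]
      exact h1.pow n
    · rintro ⟨z, hz⟩
      obtain ⟨n, e, h⟩ := (hS z).1 hz
      refine ⟨⟨e, ⟨v ^ n, n, rfl⟩⟩, ?_⟩
      apply Subtype.ext
      show z * κE (v ^ n) = κE e
      rw [map_pow, h]
    · intro x y h
      refine ⟨1, ?_⟩
      have h1 : κE x = κE y := congrArg Subtype.val h
      rw [hE h1]
  refine Nat.card_congr
    { toFun := fun g => ⟨g.comp (algebraMap E S), ?_⟩
      invFun := fun ψ => IsLocalization.Away.lift v (g := ψ.1) (isUnit_iff_ne_zero.2 ψ.2)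
      left_inv := ?_
      right_inv := ?_ }
  · exact ((IsLocalization.Away.algebraMap_isUnit (S := S) v).map g).ne_zero
  · intro g
    apply IsLocalization.ringHom_ext (Submonoid.powers v)
    exact IsLocalization.Away.lift_comp v _
  · intro ψ
    apply Subtype.ext
    exact IsLocalization.Away.lift_comp v _

lemma bir_split [Algebra.FiniteType ℤ A] (u : A) (x : Nat.Primes × ℕ) :
    hN A x = hV A u x + Nat.card {φ : A →+* GF x.1 x.2 // φ u ≠ 0} := by
  classical
  have := finite_hom (R := A) (GF x.1 x.2)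
  rw [hN, hV, ← Nat.card_congr (Equiv.sumCompl fun φ : A →+* GF x.1 x.2 => φ u = 0), Nat.card_sum]

/-- Two finitely generated domains with the same fraction field have a common localisation. -/
theorem bir [IsDomain A] [IsDomain E]
    [Algebra.FiniteType ℤ A] [Algebra.FiniteType ℤ E] {κA : A →+* K} {κE : E →+* K}
    (hκA : Frc κA) (hκE : Frc κE) :
    ∃ (u : A) (v : E), u ≠ 0 ∧ v ≠ 0 ∧ ∀ x : Nat.Primes × ℕ, x.2 ≠ 0 →
      hN A x + hV E v x = hN E x + hV A u x := by
  obtain ⟨β, hβ, h1⟩ := bir_den (E := E) hκA κE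
  obtain ⟨γ, hγ, h2⟩ := bir_den (E := A) hκE κA
  obtain ⟨k, γ', h3⟩ := h1 γ
  obtain ⟨l, β', h4⟩ := h2 β
  have hβK : κA β ≠ 0 := (map_ne_zero_iff κA hκA.inj).2 hβ
  have hγK : κE γ ≠ 0 := (map_ne_zero_iff κE hκE.inj).2 hγ
  have hγ' : γ' ≠ 0 := by
    rintro rfl
    rw [map_zero] at h3
    exact mul_ne_zero (pow_ne_zero _ hβK) hγK h3
  have hβ' : β' ≠ 0 := by
    rintro rfl
    rw [map_zero] at h4
    exact mul_ne_zero (pow_ne_zero _ hγK) hβK h4
  have hu : β * γ' ≠ 0 := mul_ne_zero hβ hγ'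
  have hv : γ * β' ≠ 0 := mul_ne_zero hγ hβ'
  let S : Subring K :=
    { carrier := {z | BirReg κE (γ * β') z}
      mul_mem' := fun hz hw => hz.mul hw
      one_mem' := by
        have := BirReg.of κE (γ * β') 1
        rwa [map_one] at this
      add_mem' := fun hz hw => hz.add hw
      zero_mem' := by
        have := BirReg.of κE (γ * β') 0
        rwa [map_zero] at this
      neg_mem' := fun hz => bir_neg_reg hz }
  have hSE : ∀ z, z ∈ S ↔ BirReg κE (γ * β') z := fun z => Iff.rfl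
  have hSA : ∀ z, z ∈ S ↔ BirReg κA (β * γ') z := fun z =>
    ⟨fun h => BirReg.trans_aux hκE.inj hκA.inj hγ hβ h1 h4 h3 h,
      fun h => BirReg.trans_aux hκA.inj hκE.inj hβ hγ h2 h3 h4 h⟩
  refine ⟨β * γ', γ * β', hu, hv, ?_⟩
  intro x _
  rw [bir_split (β * γ') x, bir_split (γ * β') x, ← bir_card hκA.inj hu S hSA,
    ← bir_card hκE.inj hv S hSE]
  ring

/-- The transcendence degree of a domain and of its fraction field. -/
lemma frc_trdeg {κA : A →+* K} (hκA : Frc κA) [IsDomain A] [CharZero A] :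
    Algebra.trdeg ℤ A = @Algebra.trdeg ℤ K _ _ (Ring.toIntAlgebra K) := by
  let alg : Algebra A K := κA.toAlgebra
  have hf2 : FaithfulSMul A K := (faithfulSMul_iff_algebraMap_injective A K).2 hκA.inj
  have hfr : IsFractionRing A K := by
    refine IsFractionRing.of_field A K ?_
    intro z
    obtain ⟨p, q, hq, h⟩ := hκA.frac z
    refine ⟨p, q, ?_⟩
    have hqK : κA q ≠ 0 := (map_ne_zero_iff κA hκA.inj).2 hq
    show z = κA p / κA q
    rw [← h]
    field_simp
  have hchK : CharZero K := charZero_of_injective_ringHom hκA.inj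
  have hint : @Algebra.IsAlgebraic A K _ _ alg := IsLocalization.isAlgebraic K (nonZeroDivisors A)
  have hf1 : FaithfulSMul ℤ A := (faithfulSMul_iff_algebraMap_injective ℤ A).2
    (RingHom.injective_int (algebraMap ℤ A))
  have hst : @IsScalarTower ℤ A K _ _ (Ring.toIntAlgebra K).toSMul :=
    IsScalarTower.of_algebraMap_eq' (RingHom.ext_int _ _)
  have h1 : Algebra.trdeg A K = 0 := trdeg_eq_zero
  have h2 := trdeg_add_eq ℤ A (A := K)
  rw [h1, add_zero] at h2
  exact h2

/-- Same fraction field, same transcendence degree. -/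
theorem FGD.of_frc {δ : ℕ} (hA : FGD A δ)
    (hE : Algebra.FiniteType ℤ E) {κA : A →+* K} {κE : E →+* K} (hκA : Frc κA) (hκE : Frc κE) :
    FGD E δ := by
  have h1 := hA.dom
  have h2 := hA.char0
  have hchK : CharZero K := charZero_of_injective_ringHom hκA.inj
  have hdE : IsDomain E := hκE.inj.isDomain
  have hcE : CharZero E := by
    refine ⟨fun m n h => ?_⟩
    have h1 : κE (m : E) = κE (n : E) := by rw [h]
    rw [map_natCast, map_natCast] at h1
    exact_mod_cast h1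
  refine ⟨hdE, hcE, hE, ?_⟩
  rw [frc_trdeg hκE, ← frc_trdeg hκA, hA.trdeg]

end

end Pool.Agent.SZ
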