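import Pool.Agent.Hhelper85.Analytic
import Pool.Agent.CAB.DerExt

/-!
# Serre's theorem on the zeta function of a finitely generated domain of characteristic zero

Definitions. `FGD A δ`: `A` is a finitely generated domain of characteristic zero and transcendence
degree `δ` (so `Spec A` has dimension `δ + 1`).
-/

namespace Pool.Agent.SZ

open Pool.Agent.Hhelper85 Polynomial

/-- A finitely generated domain of characteristic zero, of transcendence degree `δ`. -/
structure FGD (A : Type) [CommRing A] (δ : ℕ) : Prop where
  dom : IsDomain A
  char0 : CharZero A
  ft : Algebra.FiniteType ℤ A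
  trdeg : Algebra.trdeg ℤ A = δ

/-- The number of points over `F_q` at which `g` vanishes. -/
noncomputable def hV (A : Type) [CommRing A] (g : A) (x : Nat.Primes × ℕ) : ℕ :=
  Nat.card {φ : A →+* GF x.1 x.2 // φ g = 0}

/-- The embedding of a domain into the algebraic closure of its fraction field. -/
noncomputable def toAC (B : Type) [CommRing B] [IsDomain B] :
    B →+* AlgebraicClosure (FractionRing B) :=
  (algebraMap (FractionRing B) (AlgebraicClosure (FractionRing B))).comp
    (algebraMap B (FractionRing B))

/-- Absolute irreducibility of a polynomial in two variables over a domain. -/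
def AbsIrr {B : Type} [CommRing B] [IsDomain B] (f : B[X][X]) : Prop :=
  Irreducible (f.map (mapRingHom (toAC B)))

end Pool.Agent.SZ
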