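import Pool.Agent.CAB.H3
import Pool.Agent.SZ.Defs

/-!
# The Euler product of a family, with a bad divisor in the base

`MomHypC`: the estimates of `MomHyp` outside the zero locus of an element `c` of the base, the
precise one over prime fields only.
-/

namespace Pool.Agent.SZ

open Polynomial Finset Pool.Agent.Hhelper85 Pool.Agent.CAB

section defs

variable {R₀ : Type} [CommRing R₀]

/-- Estimates of the moments over all finite fields, outside the zero locus of `c`; the precise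
estimate over prime fields only. -/
structure MomHypC (P₀ : R₀[X][X]) {k : ℕ} (Δ : MvPolynomial (Fin k) R₀) (r : ℕ) (M : ℝ)
    (c : R₀) : Prop where
  nonneg : 0 ≤ M
  two_le : 2 ≤ k
  main : ∀ x : Nat.Primes × ℕ, x.2 = 1 → ∀ φ : R₀ →+* GF x.1 x.2, φ c ≠ 0 →
    |(RP P₀ Δ r x φ : ℝ)| ≤ M * (((x.1 : ℝ) ^ x.2) ^ (r + k - 1) *
      (Real.sqrt ((x.1 : ℝ) ^ x.2) * Real.sqrt (Real.sqrt ((x.1 : ℝ) ^ x.2))))
  main2 : ∀ x : Nat.Primes × ℕ, x.2 ≠ 0 → ∀ φ : R₀ →+* GF x.1 x.2, φ c ≠ 0 →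
    |(RP P₀ Δ r x φ : ℝ)| ≤ M * ((x.1 : ℝ) ^ x.2) ^ (r + k)
  abs : ∀ x : Nat.Primes × ℕ, x.2 ≠ 0 → ∀ φ : R₀ →+* GF x.1 x.2,
    SA P₀ Δ r x φ ≤ M * (((x.1 : ℝ) ^ x.2) ^ (r + k) * Real.sqrt ((x.1 : ℝ) ^ x.2))
  nz : ∀ x : Nat.Primes × ℕ, x.2 ≠ 0 → ∀ φ : R₀ →+* GF x.1 x.2,
    |(NZ (P₀.map (mapRingHom φ)) : ℝ) - ((x.1 : ℝ) ^ x.2) ^ 2| ≤ M * ((x.1 : ℝ) ^ x.2) ^ 2

end defs

section main

variable {R₀ : Type} [CommRing R₀] [Algebra.FiniteType ℤ R₀] {P₀ : R₀[X][X]} {k : ℕ}
  {Δ : MvPolynomial (Fin k) R₀} {r : ℕ} {M : ℝ} {c : R₀} (hM : MomHypC P₀ Δ r M c)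

lemma abs_SP_le (P₀ : R₀[X][X]) (Δ : MvPolynomial (Fin k) R₀) (r : ℕ)
    (x : Nat.Primes × ℕ) (φ : R₀ →+* GF x.1 x.2) :
    |(SP P₀ Δ r x φ : ℝ)| ≤ SA P₀ Δ r x φ := by
  classical
  let _ := Fintype.ofFinite (GF x.1 x.2)
  rw [SP, SA, finsum_eq_sum_of_fintype, finsum_eq_sum_of_fintype, Int.cast_sum]
  refine (Finset.abs_sum_le_sum_abs _ _).trans (Finset.sum_le_sum fun u _ => ?_)
  split_ifs
  · push_cast
    rw [abs_mul, abs_of_nonneg (by positivity :
      (0 : ℝ) ≤ (NF (fam (P₀.map (mapRingHom φ)) u) : ℝ) ^ r)]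
  · simp

include hM

lemma RP_bad {x : Nat.Primes × ℕ} (hx : x.2 ≠ 0) (φ : R₀ →+* GF x.1 x.2) :
    |(RP P₀ Δ r x φ : ℝ)| ≤ ((1 + r) * M) * (((x.1 : ℝ) ^ x.2) ^ (r + k) *
      Real.sqrt ((x.1 : ℝ) ^ x.2)) := by
  have h1 := (abs_SP_le P₀ Δ r x φ).trans (hM.abs x hx φ)
  have h2 := hM.nz x hx φ
  have hk := hM.two_le
  have hM0 := hM.nonneg
  set q : ℝ := (x.1 : ℝ) ^ x.2 with hq
  have hq1 : 1 ≤ q := by
    have : (1 : ℝ) ≤ x.1 := by exact_mod_cast x.1.2.one_le
    exact one_le_pow₀ this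
  have hs1 : 1 ≤ Real.sqrt q := by rwa [Real.one_le_sqrt]
  have e : (RP P₀ Δ r x φ : ℝ) = (SP P₀ Δ r x φ : ℝ) + r * (q ^ (r + k - 2) *
      ((NZ (P₀.map (mapRingHom φ)) : ℝ) - q ^ 2)) := by
    rw [RP]
    push_cast
    rw [← hq]
    ring
  have e2 : q ^ (r + k) = q ^ (r + k - 2) * q ^ 2 := by
    rw [← pow_add]
    congr 1
    omega
  have h3 : |(r : ℝ) * (q ^ (r + k - 2) * ((NZ (P₀.map (mapRingHom φ)) : ℝ) - q ^ 2))| ≤
      r * (M * (q ^ (r + k) * Real.sqrt q)) := by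
    rw [abs_mul, abs_mul, abs_of_nonneg (Nat.cast_nonneg r : (0 : ℝ) ≤ r),
      abs_of_nonneg (by positivity : (0 : ℝ) ≤ q ^ (r + k - 2))]
    apply mul_le_mul_of_nonneg_left _ (Nat.cast_nonneg r)
    calc q ^ (r + k - 2) * |(NZ (P₀.map (mapRingHom φ)) : ℝ) - q ^ 2|
        ≤ q ^ (r + k - 2) * (M * q ^ 2) := mul_le_mul_of_nonneg_left h2 (by positivity)
      _ = M * (q ^ (r + k) * 1) := by rw [e2]; ring
      _ ≤ M * (q ^ (r + k) * Real.sqrt q) := by gcongr
  rw [e]
  refine (abs_add_le _ _).trans ((add_le_add h1 h3).trans (le_of_eq ?_))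
  ring

/-- The bound at a point `φ` with `φ c ≠ 0`. -/
noncomputable def bdM (r k : ℕ) (x : Nat.Primes × ℕ) : ℝ :=
  if x.2 = 1 then ((x.1 : ℝ) ^ x.2) ^ (r + k - 1) *
      (Real.sqrt ((x.1 : ℝ) ^ x.2) * Real.sqrt (Real.sqrt ((x.1 : ℝ) ^ x.2)))
  else ((x.1 : ℝ) ^ x.2) ^ (r + k)

omit [Algebra.FiniteType ℤ R₀] hM in
lemma bdM_nonneg (r k : ℕ) (x : Nat.Primes × ℕ) : 0 ≤ bdM r k x := by
  rw [bdM]
  split_ifs <;> positivity

lemma TP_boundC {x : Nat.Primes × ℕ} (hx : x.2 ≠ 0) :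
    |(TP P₀ Δ r x : ℝ)| ≤ hN R₀ x * (M * bdM r k x) +
      hV R₀ c x * (((1 + r) * M) * (((x.1 : ℝ) ^ x.2) ^ (r + k) *
      Real.sqrt ((x.1 : ℝ) ^ x.2))) := by
  classical
  have := finite_hom (R := R₀) (GF x.1 x.2)
  let _ := Fintype.ofFinite (R₀ →+* GF x.1 x.2)
  have hM0 := hM.nonneg
  rw [TP, finsum_eq_sum_of_fintype, Int.cast_sum]
  refine (Finset.abs_sum_le_sum_abs _ _).trans ?_
  have h1 : ∀ φ : R₀ →+* GF x.1 x.2, |(RP P₀ Δ r x φ : ℝ)| ≤
      M * bdM r k x +
      if φ c = 0 then (((1 + r) * M) * (((x.1 : ℝ) ^ x.2) ^ (r + k) *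
        Real.sqrt ((x.1 : ℝ) ^ x.2))) else 0 := by
    intro φ
    have hb := bdM_nonneg r k x
    by_cases hφ : φ c = 0
    · rw [if_pos hφ]
      refine (RP_bad hM hx φ).trans ?_
      have : 0 ≤ M * bdM r k x := by positivity
      linarith
    · rw [if_neg hφ, add_zero, bdM]
      split_ifs with h2
      · exact hM.main x h2 φ hφ
      · exact hM.main2 x hx φ hφ
  refine (Finset.sum_le_sum (fun φ _ => h1 φ)).trans (le_of_eq ?_)
  rw [Finset.sum_add_distrib, Finset.sum_const, nsmul_eq_mul, Finset.card_univ, hN,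
    Nat.card_eq_fintype_card]
  congr 1
  rw [← Finset.sum_filter, Finset.sum_const, nsmul_eq_mul, hV, Nat.card_eq_fintype_card,
    Fintype.card_subtype]

lemma TP_term_boundC (s : ℂ) (x : Nat.Primes × ℕ) :
    ‖(TP P₀ Δ r x : ℂ) * pw s x‖
      ≤ M * (hN R₀ x * pr (s.re - (r + k - 1 : ℕ) - 3 / 4) x) +
        M * (if x.2 = 1 then 0 else hN R₀ x * pr (s.re - (r + k : ℕ)) x) +
        ((1 + r) * M) * (hV R₀ c x * pr (s.re - (r + k : ℕ) - 1 / 2) x) := by
  obtain ⟨p, n⟩ := x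
  have hM0 := hM.nonneg
  by_cases hn0 : n = 0
  · subst hn0
    simp [pw, pr]
  · have h1 := TP_boundC hM (x := (p, n)) hn0
    have e : pr (s.re - (r + k - 1 : ℕ) - 3 / 4) (p, n) =
        Real.sqrt (Real.sqrt (((p : ℕ) : ℝ) ^ n)) * (Real.sqrt (((p : ℕ) : ℝ) ^ n) *
          ((((p : ℕ) : ℝ) ^ n) ^ (r + k - 1) * pr s.re (p, n))) := by
      have h2 := pow_mul_pr (r + k - 1) s.re (p, n)
      have h3 := sqrt_mul_pr (s.re - (r + k - 1 : ℕ)) (p, n)
      have h4 := sqrt_sqrt_mul_pr (s.re - (r + k - 1 : ℕ) - 1 / 2) (p, n)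
      simp only at h2 h3 h4
      rw [h2, h3, h4]
      congr 1
      ring
    have e' : pr (s.re - (r + k : ℕ) - 1 / 2) (p, n) = Real.sqrt (((p : ℕ) : ℝ) ^ n) *
          ((((p : ℕ) : ℝ) ^ n) ^ (r + k) * pr s.re (p, n)) := by
      have h2 := pow_mul_pr (r + k) s.re (p, n)
      have h3 := sqrt_mul_pr (s.re - (r + k : ℕ)) (p, n)
      simp only at h2 h3
      rw [h2, h3]
    have e2 : pr (s.re - (r + k : ℕ)) (p, n) = (((p : ℕ) : ℝ) ^ n) ^ (r + k) * pr s.re (p, n) := by
      have h2 := pow_mul_pr (r + k) s.re (p, n)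
      simp only at h2
      rw [h2]
    have h5 : bdM r k (p, n) * pr s.re (p, n) ≤ pr (s.re - (r + k - 1 : ℕ) - 3 / 4) (p, n) +
        (if n = 1 then 0 else pr (s.re - (r + k : ℕ)) (p, n)) := by
      rw [bdM]
      by_cases h6 : n = 1
      · rw [if_pos h6, if_pos h6, e]
        apply le_of_eq
        ring
      · rw [if_neg h6, if_neg h6, e2]
        have := pr_nonneg (s.re - (r + k - 1 : ℕ) - 3 / 4) (p, n)
        simp only at this ⊢
        linarith
    rw [norm_mul, Complex.norm_intCast, norm_pw, e']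
    refine (mul_le_mul_of_nonneg_right h1 (pr_nonneg _ _)).trans ?_
    have h6 : (hN R₀ (p, n) : ℝ) * (M * bdM r k (p, n)) * pr s.re (p, n) ≤
        M * (hN R₀ (p, n) * pr (s.re - (r + k - 1 : ℕ) - 3 / 4) (p, n)) +
        M * (if n = 1 then 0 else hN R₀ (p, n) * pr (s.re - (r + k : ℕ)) (p, n)) := by
      have h7 : (0 : ℝ) ≤ hN R₀ (p, n) * M := by positivity
      have h8 := mul_le_mul_of_nonneg_left h5 h7
      refine (le_of_eq ?_).trans (h8.trans (le_of_eq ?_))
      · ring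
      · split_ifs
        · ring
        · ring
    rw [add_mul]
    apply add_le_add h6
    apply le_of_eq
    ring

variable {d : ℝ} (hd : ∀ σ : ℝ, d < σ → Summable fun x : Nat.Primes × ℕ => (hN R₀ x : ℝ) * pr σ x)
  (hd2 : ∀ σ : ℝ, d - 1 / 2 < σ →
    Summable fun x : Nat.Primes × ℕ => if x.2 = 1 then 0 else (hN R₀ x : ℝ) * pr σ x)
  (hc : ∀ σ : ℝ, d - 1 < σ → Summable fun x : Nat.Primes × ℕ => (hV R₀ c x : ℝ) * pr σ x)

omit hM in
include hd hd2 hc in
lemma summable_bdC (hk : 2 ≤ k) {τ : ℝ} (hs : d + r + k - 1 / 4 < τ) :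
    Summable fun x : Nat.Primes × ℕ => M * (hN R₀ x * pr (τ - (r + k - 1 : ℕ) - 3 / 4) x) +
        M * (if x.2 = 1 then 0 else hN R₀ x * pr (τ - (r + k : ℕ)) x) +
        ((1 + r) * M) * (hV R₀ c x * pr (τ - (r + k : ℕ) - 1 / 2) x) := by
  apply Summable.add (Summable.add _ _)
  · apply Summable.mul_left
    apply hc
    push_cast
    linarith
  · apply Summable.mul_left
    apply hd
    rw [Nat.cast_sub (by omega)]
    push_cast
    linarith
  · apply Summable.mul_left
    apply hd2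
    push_cast
    linarith

include hd hd2 hc

lemma summable_TPC {s : ℂ} (hs : d + r + k - 1 / 4 < s.re) :
    Summable fun x : Nat.Primes × ℕ => (TP P₀ Δ r x : ℂ) * pw s x :=
  Summable.of_norm_bounded (summable_bdC hd hd2 hc hM.two_le hs) (TP_term_boundC hM s)

/-- The remainder is holomorphic. -/
theorem differentiableOn_HPC :
    DifferentiableOn ℂ (HP P₀ Δ r) {s : ℂ | d + r + k - 1 / 4 < s.re} := by
  have hk := hM.two_le
  have hM0 := hM.nonneg
  intro s hs
  have hs' : d + r + k - 1 / 4 < s.re := hs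
  obtain ⟨τ, h4, h5⟩ := exists_between hs'
  have hopen : IsOpen {s : ℂ | τ < s.re} := isOpen_lt continuous_const Complex.continuous_re
  have key : DifferentiableOn ℂ (HP P₀ Δ r) {s : ℂ | τ < s.re} := by
    apply Complex.differentiableOn_tsum_of_summable_norm (summable_bdC hd hd2 hc hk h4)
    · intro x
      exact ((differentiable_pw x).const_mul _).differentiableOn
    · exact hopen
    · intro x w hw
      refine (TP_term_boundC hM w x).trans ?_
      have hw' : τ ≤ w.re := le_of_lt hw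
      apply add_le_add (add_le_add _ _)
      · apply mul_le_mul_of_nonneg_left _ (by positivity)
        apply mul_le_mul_of_nonneg_left _ (by positivity)
        apply pr_anti
        linarith
      · apply mul_le_mul_of_nonneg_left _ hM.nonneg
        apply mul_le_mul_of_nonneg_left _ (by positivity)
        apply pr_anti
        linarith
      · apply mul_le_mul_of_nonneg_left _ hM.nonneg
        split_ifs
        · exact le_rfl
        apply mul_le_mul_of_nonneg_left _ (by positivity)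
        apply pr_anti
        linarith
  exact ((key s h5).differentiableAt (hopen.mem_nhds h5)).differentiableWithinAt

lemma analyticAt_HPC {s : ℂ} (hs : d + r + k - 1 / 4 < s.re) : AnalyticAt ℂ (HP P₀ Δ r) s :=
  (differentiableOn_HPC hM hd hd2 hc).analyticAt
    ((isOpen_lt continuous_const Complex.continuous_re).mem_nhds hs)

omit hd2 hc

lemma summable_DZC {s : ℂ} (hs : d + 2 < s.re) :
    Summable fun x : Nat.Primes × ℕ => (DZ P₀ x : ℂ) * pw s x := by
  apply Summable.of_norm_bounded (g := fun x => M * (hN R₀ x * pr (s.re - 2) x))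
  · apply Summable.mul_left
    apply hd
    linarith
  · intro x
    obtain ⟨p, n⟩ := x
    by_cases hn0 : n = 0
    · subst hn0
      simp [pw, pr]
    · have h1 : |(DZ P₀ (p, n) : ℝ)| ≤ hN R₀ (p, n) * (M * (((p : ℕ) : ℝ) ^ n) ^ 2) := by
        have := finite_hom (R := R₀) (GF p n)
        let _ := Fintype.ofFinite (R₀ →+* GF p n)
        rw [DZ, finsum_eq_sum_of_fintype, Int.cast_sum]
        refine (Finset.abs_sum_le_sum_abs _ _).trans ?_
        refine (Finset.sum_le_sum (g := fun _ => M * (((p : ℕ) : ℝ) ^ n) ^ 2)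
          (fun φ _ => ?_)).trans ?_
        · have h := hM.nz (p, n) hn0 φ
          push_cast
          exact h
        · rw [Finset.sum_const, nsmul_eq_mul, Finset.card_univ, hN, Nat.card_eq_fintype_card]
      have h2 := pow_mul_pr 2 s.re (p, n)
      simp only at h2
      push_cast at h2
      rw [norm_mul, Complex.norm_intCast, norm_pw, ← h2]
      refine (mul_le_mul_of_nonneg_right h1 (pr_nonneg _ _)).trans (le_of_eq ?_)
      ring

lemma summable_vPC {s : ℂ} (hs : d + r + k + 1 / 2 < s.re) :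
    Summable (vP ((family P₀ k Δ).power r).P s) := by
  rw [← summable_norm_iff]
  rw [summable_sigma_of_nonneg (fun _ => norm_nonneg _)]
  refine ⟨fun x => ?_, ?_⟩
  · have := finite_hom (R := ((family P₀ k Δ).power r).R) (GF x.1 x.2)
    exact Summable.of_finite
  · apply Summable.of_nonneg_of_le (f := fun x => M * (hN R₀ x
      * pr (s.re - (r + k : ℕ) - 1 / 2) x))
    · intro x
      exact tsum_nonneg (fun _ => norm_nonneg _)
    · intro x
      have := finite_hom (R := ((family P₀ k Δ).power r).R) (GF x.1 x.2)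
      have := finite_hom (R := R₀) (GF x.1 x.2)
      let _ := Fintype.ofFinite (((family P₀ k Δ).power r).R →+* GF x.1 x.2)
      let _ := Fintype.ofFinite (R₀ →+* GF x.1 x.2)
      rw [tsum_fintype]
      simp only [norm_vP]
      rw [← Finset.sum_mul]
      by_cases hx : x.2 = 0
      · obtain ⟨p, n⟩ := x
        simp only at hx
        subst hx
        simp [pr]
      · rw [← sqrt_mul_pr, ← pow_mul_pr, sum_abs_eq]
        have h1 : ∑ φ : R₀ →+* GF x.1 x.2, SA P₀ Δ r x φ ≤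
            hN R₀ x * (M * (((x.1 : ℝ) ^ x.2) ^ (r + k) * Real.sqrt ((x.1 : ℝ) ^ x.2))) := by
          refine (Finset.sum_le_sum (fun φ _ => hM.abs x hx φ)).trans ?_
          rw [Finset.sum_const, nsmul_eq_mul, Finset.card_univ, hN, Nat.card_eq_fintype_card]
        refine (mul_le_mul_of_nonneg_right h1 (pr_nonneg _ _)).trans (le_of_eq ?_)
        ring
    · apply Summable.mul_left
      apply hd
      push_cast
      linarith

include hd2 hc

lemma tsum_vPC {s : ℂ} (hs : d + r + k + 1 / 2 < s.re) :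
    ∑' h, vP ((family P₀ k Δ).power r).P s h
      = HP P₀ Δ r s - r * LD P₀ (s - (r + k - 2 : ℕ)) := by
  have hk := hM.two_le
  have h1 := summable_vPC hM hd hs
  rw [h1.tsum_sigma]
  have h4 : ∀ x : Nat.Primes × ℕ,
      ∑' ψ : ((family P₀ k Δ).power r).R →+* GF x.1 x.2,
        vP ((family P₀ k Δ).power r).P s ⟨x, ψ⟩
      = (TP P₀ Δ r x : ℂ) * pw s x - r * ((DZ P₀ x : ℂ) * pw (s - (r + k - 2 : ℕ)) x) := by
    intro x
    have := finite_hom (R := ((family P₀ k Δ).power r).R) (GF x.1 x.2)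
    let _ := Fintype.ofFinite (((family P₀ k Δ).power r).R →+* GF x.1 x.2)
    rw [tsum_fintype]
    simp only [vP_eq]
    rw [← Finset.sum_mul, sum_eq hk, ← pow_mul_pw]
    ring
  simp only [h4]
  have h3' : Summable fun x : Nat.Primes × ℕ =>
      (r : ℂ) * ((DZ P₀ x : ℂ) * pw (s - (r + k - 2 : ℕ)) x) := by
    apply Summable.mul_left
    apply summable_DZC hM hd
    simp only [Complex.sub_re, Complex.natCast_re]
    rw [Nat.cast_sub (by omega)]
    push_cast
    linarith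
  rw [(summable_TPC hM hd hd2 hc (by linarith)).tsum_sub h3', tsum_mul_left]
  rfl

/-- The Euler product of the family with `r` marked points. -/
theorem hasProd_factorC {s : ℂ} (hs : d + r + k + 1 / 2 < s.re) {W : ℂ}
    (hW : W = Complex.exp (LD P₀ (s - (r + k) + 2))) :
    HasProd (fun m : MaximalSpectrum ((family P₀ k Δ).power r).R =>
      localFactor ((family P₀ k Δ).power r).P m s)
      (Complex.exp (HP P₀ Δ r s) * (W ^ r)⁻¹) := by
  have h := euler_product ((family P₀ k Δ).power r).P (s := s) (summable_vPC hM hd hs)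
  rw [tsum_vPC hM hd hd2 hc hs] at h
  have hk := hM.two_le
  have e : s - (r + k) + 2 = s - (r + k - 2 : ℕ) := by
    rw [Nat.cast_sub (by omega)]
    push_cast
    ring
  have h5 : Complex.exp (HP P₀ Δ r s) * (W ^ r)⁻¹
      = Complex.exp (HP P₀ Δ r s - r * LD P₀ (s - (r + k - 2 : ℕ))) := by
    rw [Complex.exp_sub, Complex.exp_nat_mul, hW, e, div_eq_mul_inv]
  rw [h5]
  exact h

/-- The continuation obtained from a continuation of `exp (LD P₀ (s + 2))`. -/
theorem rel_contC {ε : ℝ} (hε : 0 < ε) (hε1 : ε ≤ 1 / 4) {W : ℂ → ℂ}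
    (hWm : MeromorphicOn W {s : ℂ | d - ε < s.re})
    (hW : ∀ s : ℂ, d < s.re → W s = Complex.exp (LD P₀ (s + 2))) :
    ∃ Φ : ℂ → ℂ, MeromorphicOn Φ {s : ℂ | d + r + k - ε < s.re} ∧
      (∀ s : ℂ, d + r + k + 1 / 2 < s.re →
        HasProd (fun m : MaximalSpectrum ((family P₀ k Δ).power r).R =>
          localFactor ((family P₀ k Δ).power r).P m s) (Φ s)) ∧
      meromorphicOrderAt Φ ((d : ℂ) + r + k) = -(r * meromorphicOrderAt W (d : ℂ)) := by
  have hZc : ∀ s : ℂ, d + r + k - ε < s.re →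
      MeromorphicAt (fun s : ℂ => W (s - ((r : ℂ) + k))) s := by
    intro s hs
    have hg : AnalyticAt ℂ (fun s : ℂ => s - ((r : ℂ) + k)) s := analyticAt_id.sub analyticAt_const
    have h2 : d - ε < (s - ((r : ℂ) + k)).re := by
      simp only [Complex.sub_re, Complex.add_re, Complex.natCast_re]
      linarith
    have h3 : MeromorphicAt (W ∘ fun s : ℂ => s - ((r : ℂ) + k)) s :=
      MeromorphicAt.comp_analyticAt (hWm _ h2) hg
    exact h3
  refine ⟨fun s => Complex.exp (HP P₀ Δ r s) * ((W (s - (r + k))) ^ r)⁻¹, ?_, ?_, ?_⟩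
  · intro s hs
    have hs' : d + r + k - ε < s.re := hs
    have h1 := (analyticAt_HPC hM hd hd2 hc (s := s) (by linarith)).cexp.meromorphicAt
    exact h1.mul (((hZc s hs').pow r).inv)
  · intro s hs
    apply hasProd_factorC hM hd hd2 hc hs
    apply hW
    simp only [Complex.sub_re, Complex.add_re, Complex.natCast_re]
    linarith
  · have hre : ((d : ℂ) + r + k).re = d + r + k := by simp
    have h1 := (analyticAt_HPC hM hd hd2 hc (s := (d : ℂ) + r + k) (by rw [hre]; linarith)).cexp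
    have h2 := hZc ((d : ℂ) + r + k) (by rw [hre]; linarith)
    have e1 : ((d : ℂ) + r + k) - ((r : ℂ) + k) = d := by ring
    have h4 : meromorphicOrderAt (fun s : ℂ => W (s - (r + k))) ((d : ℂ) + r + k)
        = meromorphicOrderAt W d := by
      have := meromorphicOrderAt_comp_sub_const_eq_meromorphicOrderAt (f := W)
        (c := (r : ℂ) + k) (x := (d : ℂ) + r + k)
      rw [e1] at this
      rw [← this]
      rfl
    have h7 : meromorphicOrderAt (fun s => Complex.exp (HP P₀ Δ r s) *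
        ((W (s - (r + k))) ^ r)⁻¹) ((d : ℂ) + r + k)
        = meromorphicOrderAt (((fun s : ℂ => W (s - (r + k))) ^ r)⁻¹) ((d : ℂ) + r + k) :=
      meromorphicOrderAt_mul_of_ne_zero h1 (Complex.exp_ne_zero _)
    rw [h7, meromorphicOrderAt_inv, meromorphicOrderAt_pow h2, h4]

end main

end Pool.Agent.SZ
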