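import Pool.Agent.SZ.Defs

/-!
# Quotients have smaller transcendence degree
-/

namespace Pool.Agent.SZ

open Polynomial

/-- A proper quotient domain has smaller transcendence degree. Proof. `trdeg` is finite
(`Algebra.trdeg_lt_aleph0_of_finiteType`). Let `u_1, ..., u_ε ∈ A` be lifts of a transcendence basis
of `B` over `F`; they are algebraically independent in `A`
(`AlgebraicIndependent.of_map`-type lemma), so `ε ≤ δ`. If `ε = δ` then `u` is a transcendence
basis of `A` (`isTranscendenceBasis_of_trdeg_le_of_finite` or so), `A` is algebraic over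
`F[u]`, so the given `a ≠ 0`, `π a = 0`, divides a nonzero element `r` of `F[u]`
(`IsAlgebraic.exists_nonzero_dvd`); then `π(r) = 0`, which contradicts the algebraic
independence of the `π(u_i)`. -/
theorem dimB_same {F A B : Type} [CommRing F] [IsDomain F] [CommRing A] [IsDomain A] [CommRing B]
    [IsDomain B] [Algebra F A] [Algebra F B] [Algebra.FiniteType F A]
    (hFB : Function.Injective (algebraMap F B)) (π : A →ₐ[F] B) (hπ : Function.Surjective π)
    (hker : ∃ a : A, a ≠ 0 ∧ π a = 0) {δ : ℕ} (h : Algebra.trdeg F A = δ) :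
    ∃ ε : ℕ, Algebra.trdeg F B = ε ∧ ε + 1 ≤ δ := by
  have hle : Algebra.trdeg F B ≤ Algebra.trdeg F A := trdeg_le_of_surjective π hπ
  rw [h] at hle
  obtain ⟨ε, hε⟩ := Cardinal.lt_aleph0.1 (hle.trans_lt (Cardinal.natCast_lt_aleph0))
  refine ⟨ε, hε, ?_⟩
  by_contra hlt
  have hδε : δ ≤ ε := by omega
  have : FaithfulSMul F B := (faithfulSMul_iff_algebraMap_injective F B).2 hFB
  have hFA : Function.Injective (algebraMap F A) := by
    intro x y hxy
    apply hFB
    rw [← π.commutes, ← π.commutes, hxy]
  have : FaithfulSMul F A := (faithfulSMul_iff_algebraMap_injective F A).2 hFA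
  obtain ⟨ι, x, hx⟩ := exists_isTranscendenceBasis' F B
  have hcard : Cardinal.mk ι = ε := by
    rw [← hε]
    exact hx.cardinalMk_eq_trdeg
  have : Finite ι := by
    rw [← Cardinal.lt_aleph0_iff_finite, hcard]
    exact Cardinal.natCast_lt_aleph0
  choose u hu using fun i => hπ (x i)
  have hux : (π : A → B) ∘ u = x := funext hu
  have hind : AlgebraicIndependent F u := by
    apply AlgebraicIndependent.of_comp π
    rw [hux]
    exact hx.1
  have hbas : IsTranscendenceBasis F u := by
    apply hind.isTranscendenceBasis_of_trdeg_le_of_finite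
    rw [h, hcard]
    exact_mod_cast hδε
  obtain ⟨a, ha, hpa⟩ := hker
  have halg := hbas.isAlgebraic.isAlgebraic a
  have hinj : Function.Injective (algebraMap (Algebra.adjoin F (Set.range u)) A) :=
    Subtype.val_injective
  obtain ⟨r, hr0, hr⟩ := halg.exists_nonzero_dvd (mem_nonZeroDivisors_of_ne_zero ha)
  obtain ⟨b, hb⟩ := hr
  have hr1 : (r : A) ∈ Algebra.adjoin F (Set.range u) := r.2
  have hr2 : (r : A) ∈ (MvPolynomial.aeval (R := F) u).range := by
    have h0 := Algebra.adjoin_range_eq_range_aeval F u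
    exact (SetLike.ext_iff.1 h0 (r : A)).1 hr1
  obtain ⟨G, hG⟩ := hr2
  have h1 : π (r : A) = 0 := by
    have : (r : A) = a * b := hb
    rw [this, map_mul, hpa, zero_mul]
  have h2 : MvPolynomial.aeval x G = 0 := by
    rw [← h1, ← hG, ← hux]
    exact (MvPolynomial.comp_aeval_apply u π G).symm
  have h3 : G = 0 := hx.1 (by rw [h2, map_zero])
  apply hr0
  apply Subtype.ext
  rw [h3] at hG
  have : (r : A) = 0 := by
    rw [← hG]
    exact map_zero _
  exact this

/-- A quotient of characteristic `p` of a domain of characteristic zero. Proof. Let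
`u_1, ..., u_ε ∈ A` be lifts of elements of `B` which are algebraically independent over `F_p`. They
are algebraically independent over `ℤ`: let `0 ≠ G ∈ ℤ[T_1..T_ε]` with `G(u) = 0`; write
`G = p ^ k G₁` with `G₁` not divisible by `p` (`MvPolynomial` over `ℤ`: divide by the largest power
of `p` dividing all coefficients; induction); `p ^ k ≠ 0` in the domain `A` of characteristic zero,
so `G₁(u) = 0`, and the reduction of `G₁` modulo `p` is nonzero and vanishes at the images in `B`,
a contradiction. So `ε ≤ δ`. `B` is of finite type over `ZMod p` (it is a quotient of `A`). -/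
theorem dimB_mixed {A B : Type} [CommRing A] [IsDomain A] [CharZero A] [Algebra.FiniteType ℤ A]
    [CommRing B] [IsDomain B] {p : ℕ} [Fact p.Prime] [Algebra (ZMod p) B] (π : A →+* B)
    (hπ : Function.Surjective π) {δ : ℕ} (h : Algebra.trdeg ℤ A = δ) :
    ∃ ε : ℕ, Algebra.trdeg (ZMod p) B = ε ∧ ε ≤ δ := by
  have hp : p.Prime := Fact.out
  have : FaithfulSMul (ZMod p) B :=
    (faithfulSMul_iff_algebraMap_injective (ZMod p) B).2 (algebraMap (ZMod p) B).injective
  obtain ⟨ι, x, hx⟩ := exists_isTranscendenceBasis' (ZMod p) B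
  choose u hu using fun i => hπ (x i)
  have hred : ∀ G : MvPolynomial ι ℤ, MvPolynomial.aeval u G = 0 →
      MvPolynomial.C (p : ℤ) ∣ G := by
    intro G hG
    rw [MvPolynomial.C_dvd_iff_map_hom_eq_zero (Int.castRingHom (ZMod p)) (p : ℤ)
      (fun r => by
        rw [eq_intCast]
        exact ZMod.intCast_zmod_eq_zero_iff_dvd r p)]
    apply hx.1
    rw [map_zero]
    have h1 : MvPolynomial.aeval x (MvPolynomial.map (Int.castRingHom (ZMod p)) G) =
        π (MvPolynomial.aeval u G) := by
      rw [MvPolynomial.aeval_def, MvPolynomial.eval₂_map, MvPolynomial.aeval_def,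
        MvPolynomial.eval₂_comp_left]
      congr 1
      · exact RingHom.ext_int _ _
      · exact (funext hu).symm
    rw [h1, hG, map_zero]
  have hpow : ∀ (k : ℕ) (G : MvPolynomial ι ℤ), MvPolynomial.aeval u G = 0 →
      MvPolynomial.C ((p : ℤ) ^ k) ∣ G := by
    intro k
    induction k with
    | zero =>
      intro G _
      rw [pow_zero, map_one]
      exact one_dvd _
    | succ k ih =>
      intro G hG
      obtain ⟨G', hG'⟩ := hred G hG
      have h1 : MvPolynomial.aeval u G' = 0 := by
        rw [hG', map_mul, MvPolynomial.aeval_C, mul_eq_zero] at hG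
        rcases hG with h2 | h2
        · exfalso
          rw [eq_intCast, Int.cast_natCast] at h2
          exact hp.ne_zero (Nat.cast_injective (R := A) (by rw [h2, Nat.cast_zero]))
        · exact h2
      obtain ⟨G'', hG''⟩ := ih G' h1
      refine ⟨G'', ?_⟩
      rw [hG', hG'', ← mul_assoc, ← map_mul, pow_succ']
  have hind : AlgebraicIndependent ℤ u := by
    rw [algebraicIndependent_iff]
    intro G hG
    ext m
    rw [MvPolynomial.coeff_zero]
    by_contra hne
    have h1 : ∀ k : ℕ, (p : ℤ) ^ k ∣ MvPolynomial.coeff m G := fun k =>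
      (MvPolynomial.C_dvd_iff_dvd_coeff _ _).1 (hpow k G hG) m
    have h2 : ∀ k : ℕ, p ^ k ≤ (MvPolynomial.coeff m G).natAbs := by
      intro k
      apply Nat.le_of_dvd (Int.natAbs_pos.2 hne)
      have := Int.natAbs_dvd_natAbs.2 (h1 k)
      rwa [Int.natAbs_pow, Int.natAbs_natCast] at this
    have h3 := h2 (MvPolynomial.coeff m G).natAbs
    have h4 := Nat.lt_pow_self (n := (MvPolynomial.coeff m G).natAbs) hp.one_lt
    omega
  have hle : Algebra.trdeg (ZMod p) B ≤ δ := by
    rw [← hx.cardinalMk_eq_trdeg, ← h]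
    exact hind.cardinalMk_le_trdeg
  obtain ⟨ε, hε⟩ := Cardinal.lt_aleph0.1 (hle.trans_lt (Cardinal.natCast_lt_aleph0))
  refine ⟨ε, hε, ?_⟩
  rw [hε] at hle
  exact_mod_cast hle

end Pool.Agent.SZ
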