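import Pool.Agent.SZ.Defs

/-!
# Counting points: the generic part

`dimA`. Proof. Let `a_1, ..., a_m` generate `A` over `F` and let `x : Fin δ → A` be a transcendence
basis of `A` over `F` consisting of elements of `A` (`exists_isTranscendenceBasis'`, the cardinality
is `δ` by `IsTranscendenceBasis.cardinalMk_eq_trdeg`). Every `a_j` is algebraic over
`F[x] := Algebra.adjoin F (range x)`: there is a nonzero polynomial `f_j ∈ F[x][T]` with
`f_j(a_j) = 0`; let `c_j ≠ 0` be its leading coefficient, and `c = ∏ c_j ∈ A`, `c ≠ 0`. A ring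
homomorphism `φ : A → K` with `φ(c) ≠ 0` is determined by the elements `φ(x_i)` (at most `(#K) ^ δ`
choices) and `φ(a_j)` (there is at most one homomorphism `F → K`); given the `φ(x_i)`, the polynomial
`φ(f_j) ∈ K[T]` is determined and nonzero (`φ(c_j) ≠ 0`) and has degree `deg f_j`, so there are at most
`deg f_j` possibilities for `φ(a_j)`. So `C = ∏ deg f_j`. In Lean: the map
`φ ↦ (φ ∘ x, φ ∘ a)` is injective; bound the fibres over `φ ∘ x` by a product of root sets
(`Polynomial.card_roots'`), e.g. injecting the fibre into `∏_j (φ(f_j)).rootSet K`.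
-/

namespace Pool.Agent.SZ

open Polynomial

/-- Homomorphisms agreeing on the base ring and on a set agree on the subalgebra generated. -/
theorem dimA_agree {F A K : Type} [CommRing F] [CommRing A] [Algebra F A] [Field K]
    (hF : Subsingleton (F →+* K)) (s : Set A) (φ ψ : A →+* K) (h : ∀ a ∈ s, φ a = ψ a)
    {z : A} (hz : z ∈ Algebra.adjoin F s) : φ z = ψ z := by
  induction hz using Algebra.adjoin_induction with
  | mem x hx => exact h x hx
  | algebraMap r =>
    have h1 : φ.comp (algebraMap F A) = ψ.comp (algebraMap F A) := Subsingleton.elim _ _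
    exact congrArg (fun g => g r) h1
  | add x y _ _ hx hy => rw [map_add, map_add, hx, hy]
  | mul x y _ _ hx hy => rw [map_mul, map_mul, hx, hy]

theorem dimA {F A : Type} [CommRing F] [IsDomain F] [CommRing A] [IsDomain A] [Algebra F A]
    [Algebra.FiniteType F A] (hinj : Function.Injective (algebraMap F A))
    (hF : ∀ (K : Type) [Field K], Subsingleton (F →+* K)) {δ : ℕ}
    (h : Algebra.trdeg F A = δ) :
    ∃ c : A, c ≠ 0 ∧ ∃ C : ℕ, ∀ (K : Type) [Field K] [Finite K],
      Nat.card {φ : A →+* K // φ c ≠ 0} ≤ C * Nat.card K ^ δ := by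
  classical
  have hfs : FaithfulSMul F A := (faithfulSMul_iff_algebraMap_injective F A).2 hinj
  obtain ⟨ι, x, hx⟩ := exists_isTranscendenceBasis' F A
  have hcard : Cardinal.mk ι = δ := by rw [hx.cardinalMk_eq_trdeg, h]
  obtain ⟨e⟩ := Cardinal.mk_eq_nat_iff.1 hcard
  have hfin : Finite ι := Finite.of_equiv _ e.symm
  have : Fintype ι := Fintype.ofFinite ι
  have hcardι : Fintype.card ι = δ := by
    rw [Fintype.card_congr e, Fintype.card_fin]
  obtain ⟨s, hs⟩ := (inferInstance : Algebra.FiniteType F A).out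
  set B := Algebra.adjoin F (Set.range x) with hB
  have halg : Algebra.IsAlgebraic B A := hx.isAlgebraic
  have hex : ∀ a : A, ∃ f : B[X], f ≠ 0 ∧ aeval a f = 0 := fun a => halg.isAlgebraic a
  choose f hf0 hfa using hex
  refine ⟨∏ a ∈ s, ((f a).leadingCoeff : A), ?_, ∏ a ∈ s, (f a).natDegree, ?_⟩
  · refine Finset.prod_ne_zero_iff.2 fun a _ => ?_
    intro h0
    exact hf0 a (leadingCoeff_eq_zero.1 (Subtype.ext h0))
  intro K _ _
  have hFK := hF K
  have : Fintype K := Fintype.ofFinite K
  -- finiteness of the set of homomorphisms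
  have hfinhom : Finite {φ : A →+* K // φ (∏ a ∈ s, ((f a).leadingCoeff : A)) ≠ 0} := by
    refine Finite.of_injective (fun φ => fun a : s => φ.1 a.1) ?_
    intro φ ψ hφψ
    refine Subtype.ext (RingHom.ext fun z => ?_)
    refine dimA_agree (F := F) hFK (s : Set A) φ.1 ψ.1 ?_ (z := z) (by rw [hs]; trivial)
    intro a ha
    exact congrFun hφψ ⟨a, ha⟩
  have := Fintype.ofFinite {φ : A →+* K // φ (∏ a ∈ s, ((f a).leadingCoeff : A)) ≠ 0}
  rw [Nat.card_eq_fintype_card, Nat.card_eq_fintype_card, ← Finset.card_univ]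
  have hpow : (Fintype.card K) ^ δ = (Finset.univ : Finset (ι → K)).card := by
    rw [Finset.card_univ, Fintype.card_fun, hcardι]
  rw [hpow]
  refine Finset.card_le_mul_card_image_of_maps_to (f := fun φ => fun i => φ.1 (x i))
    (fun _ _ => Finset.mem_univ _) _ ?_
  intro y _
  rcases Finset.eq_empty_or_nonempty
    (Finset.univ.filter fun φ : {φ : A →+* K // φ (∏ a ∈ s, ((f a).leadingCoeff : A)) ≠ 0} =>
      (fun i => φ.1 (x i)) = y) with hem | ⟨φ₀, hφ₀⟩
  · rw [hem]; simp
  rw [Finset.mem_filter] at hφ₀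
  -- the specialised polynomials
  set g : A → K[X] := fun a => (f a).map (φ₀.1.comp B.val.toRingHom) with hg
  have hg0 : ∀ a ∈ s, g a ≠ 0 := by
    intro a ha h0
    have h1 : (g a).coeff (f a).natDegree = 0 := by rw [h0, coeff_zero]
    rw [hg] at h1
    simp only [coeff_map] at h1
    have h2 := φ₀.2
    rw [map_prod] at h2
    exact Finset.prod_ne_zero_iff.1 h2 a ha h1
  have hroot : ∀ φ : {φ : A →+* K // φ (∏ a ∈ s, ((f a).leadingCoeff : A)) ≠ 0},
      (fun i => φ.1 (x i)) = y → ∀ a ∈ s, φ.1 a ∈ (g a).roots.toFinset := by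
    intro φ hφ a ha
    rw [Multiset.mem_toFinset, mem_roots (hg0 a ha), IsRoot.def]
    have hmap : φ₀.1.comp B.val.toRingHom = φ.1.comp B.val.toRingHom := by
      refine RingHom.ext fun z => ?_
      refine dimA_agree (F := F) hFK (Set.range x) φ₀.1 φ.1 ?_ z.2
      rintro _ ⟨i, rfl⟩
      exact (congrFun hφ₀.2 i).trans (congrFun hφ i).symm
    rw [hg]
    simp only
    rw [hmap, eval_map, ← RingHom.comp_id (φ.1.comp B.val.toRingHom)]
    have h3 : eval₂ (φ.1.comp B.val.toRingHom) (φ.1 a) (f a) = φ.1 (aeval a (f a)) := by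
      rw [aeval_def, hom_eval₂]
      rfl
    rw [RingHom.comp_id, h3, hfa, map_zero]
  calc (Finset.univ.filter fun φ : {φ : A →+* K // φ (∏ a ∈ s, ((f a).leadingCoeff : A)) ≠ 0} =>
      (fun i => φ.1 (x i)) = y).card
      ≤ (s.pi fun a => (g a).roots.toFinset).card := by
        refine Finset.card_le_card_of_injOn (fun φ => fun a _ => φ.1 a) ?_ ?_
        · intro φ hφ
          rw [Finset.mem_coe, Finset.mem_filter] at hφ
          rw [Finset.mem_coe, Finset.mem_pi]
          intro a ha
          exact hroot φ hφ.2 a ha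
        · intro φ _ ψ _ hφψ
          refine Subtype.ext (RingHom.ext fun z => ?_)
          refine dimA_agree (F := F) hFK (s : Set A) φ.1 ψ.1 ?_ (z := z) (by rw [hs]; trivial)
          intro a ha
          exact congrFun (congrFun hφψ a) ha
    _ = ∏ a ∈ s, (g a).roots.toFinset.card := by
        rw [Finset.card_pi]
    _ ≤ ∏ a ∈ s, (f a).natDegree := by
        refine Finset.prod_le_prod' fun a _ => ?_
        refine (Multiset.toFinset_card_le _).trans ((card_roots' _).trans ?_)
        exact natDegree_map_le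

end Pool.Agent.SZ
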