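import Pool.Agent.SZ.DimA
import Pool.Agent.SZ.DimB

/-!
# Counting points: upper bounds
-/

namespace Pool.Agent.SZ

open Pool.Agent.Hhelper85 Polynomial

/-- The points at which `g` vanishes are points of finitely many quotient domains. Proof: the minimal
primes over `(g)`: finitely many (`Ideal.finite_minimalPrimes_of_isNoetherianRing`); the kernel of
`φ` is a prime containing `g`, so it contains one of them (`Ideal.exists_minimalPrimes_le`). -/
theorem exists_cover {A : Type} [CommRing A] [IsNoetherianRing A] (g : A) :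
    ∃ s : Finset (Ideal A), (∀ P ∈ s, P.IsPrime ∧ g ∈ P) ∧
      ∀ (K : Type) [Field K] (φ : A →+* K), φ g = 0 → ∃ P ∈ s, P ≤ RingHom.ker φ := by
  have hfin := Ideal.finite_minimalPrimes_of_isNoetherianRing A (Ideal.span {g})
  refine ⟨hfin.toFinset, ?_, ?_⟩
  · intro P hP
    rw [Set.Finite.mem_toFinset] at hP
    exact ⟨hP.1.1, hP.1.2 (Ideal.subset_span rfl)⟩
  · intro K _ φ hφ
    have : (RingHom.ker φ).IsPrime := RingHom.ker_isPrime φ
    obtain ⟨P, hP, hle⟩ := Ideal.exists_minimalPrimes_le (I := Ideal.span {g})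
      (J := RingHom.ker φ) (by
        rw [Ideal.span_singleton_le_iff_mem]
        exact hφ)
    exact ⟨P, by rw [Set.Finite.mem_toFinset]; exact hP, hle⟩

namespace DimCAux

lemma ft_surj {A B : Type} [CommRing A] [Algebra.FiniteType ℤ A] [CommRing B] {π : A →+* B}
    (hπ : Function.Surjective π) : Algebra.FiniteType ℤ B :=
  Algebra.FiniteType.of_surjective π.toIntAlgHom hπ

lemma fin_surj {A B : Type} [CommRing A] [Algebra.FiniteType ℤ A] [CommRing B] {π : A →+* B}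
    (hπ : Function.Surjective π) (K : Type) [Field K] [Finite K] : Finite (B →+* K) := by
  have := ft_surj hπ
  exact finite_hom K

lemma card_zero_le {A : Type} [CommRing A] [Algebra.FiniteType ℤ A] {g : A}
    {s : Finset (Ideal A)}
    (hs : ∀ (K : Type) [Field K] (φ : A →+* K), φ g = 0 → ∃ P ∈ s, P ≤ RingHom.ker φ)
    (K : Type) [Field K] [Finite K] :
    Nat.card {φ : A →+* K // φ g = 0} ≤ ∑ P ∈ s, Nat.card (A ⧸ P →+* K) := by
  classical
  have hf : ∀ P : Ideal A, Finite (A ⧸ P →+* K) := fun P =>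
    fin_surj (π := Ideal.Quotient.mk P) Ideal.Quotient.mk_surjective K
  choose P hPs hPle using fun φ : {φ : A →+* K // φ g = 0} => hs K φ.1 φ.2
  let f : {φ : A →+* K // φ g = 0} → Σ P : s, ((A ⧸ (P : Ideal A)) →+* K) := fun φ =>
    ⟨⟨P φ, hPs φ⟩, Ideal.Quotient.lift (P φ) φ.1 (fun a ha => hPle φ ha)⟩
  have key : ∀ φ, (f φ).2.comp (Ideal.Quotient.mk ((f φ).1 : Ideal A)) = φ.1 := by
    intro φ
    ext a
    simp [f]
  have hinj : Function.Injective f := by
    intro φ ψ h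
    apply Subtype.ext
    rw [← key φ, ← key ψ, h]
  calc Nat.card {φ : A →+* K // φ g = 0}
      ≤ Nat.card (Σ P : s, ((A ⧸ (P : Ideal A)) →+* K)) :=
        Nat.card_le_card_of_injective f hinj
    _ = ∑ P : s, Nat.card ((A ⧸ (P : Ideal A)) →+* K) := Nat.card_sigma
    _ = _ := Finset.sum_coe_sort s (fun P => Nat.card (A ⧸ P →+* K))

lemma bd_step {A : Type} [CommRing A] [Algebra.FiniteType ℤ A] {c : A} {C δ : ℕ}
    (hC : ∀ (K : Type) [Field K] [Finite K],
      Nat.card {φ : A →+* K // φ c ≠ 0} ≤ C * Nat.card K ^ δ)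
    (hq : ∀ P : Ideal A, P.IsPrime → c ∈ P → ∃ C' : ℕ, ∀ (K : Type) [Field K] [Finite K],
      Nat.card (A ⧸ P →+* K) ≤ C' * Nat.card K ^ δ) :
    ∃ C' : ℕ, ∀ (K : Type) [Field K] [Finite K], Nat.card (A →+* K) ≤ C' * Nat.card K ^ δ := by
  classical
  have hnoe : IsNoetherianRing A := Algebra.FiniteType.isNoetherianRing ℤ A
  obtain ⟨s, hs1, hs2⟩ := exists_cover c
  choose! C' hC' using hq
  refine ⟨C + ∑ P ∈ s, C' P, fun K _ _ => ?_⟩
  have hfin : Finite (A →+* K) := finite_hom K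
  have h1 := card_zero_le hs2 K
  have h2 : ∑ P ∈ s, Nat.card (A ⧸ P →+* K) ≤ ∑ P ∈ s, C' P * Nat.card K ^ δ :=
    Finset.sum_le_sum (fun P hP => hC' P (hs1 P hP).1 (hs1 P hP).2 K)
  have h3 : Nat.card (A →+* K) =
      Nat.card {φ : A →+* K // φ c = 0} + Nat.card {φ : A →+* K // φ c ≠ 0} := by
    rw [← Nat.card_sum]
    exact (Nat.card_congr (Equiv.sumCompl (fun φ : A →+* K => φ c = 0))).symm
  have h4 := hC K
  rw [h3, add_mul, Finset.sum_mul]
  omega

lemma char_cases (B : Type) [CommRing B] [IsDomain B] :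
    CharZero B ∨ ∃ p : ℕ, p.Prime ∧ CharP B p := by
  obtain ⟨p, hp⟩ := CharP.exists B
  rcases CharP.char_is_prime_or_zero B p with h | h
  · exact Or.inr ⟨p, h, hp⟩
  · subst h
    exact Or.inl (CharP.charP_to_charZero B)

/-- the statement of `bd_all` -/
def Bd (D : ℕ) : Prop :=
    (∀ (A : Type) [CommRing A] [IsDomain A] [CharZero A] [Algebra.FiniteType ℤ A] (δ : ℕ),
      Algebra.trdeg ℤ A = δ → δ + 1 ≤ D → ∃ C : ℕ, ∀ (K : Type) [Field K] [Finite K],
        Nat.card (A →+* K) ≤ C * Nat.card K ^ δ) ∧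
    (∀ (p : ℕ) [Fact p.Prime] (A : Type) [CommRing A] [IsDomain A] [Algebra (ZMod p) A]
      [Algebra.FiniteType (ZMod p) A] (δ : ℕ), Algebra.trdeg (ZMod p) A = δ → δ ≤ D →
      ∃ C : ℕ, ∀ (K : Type) [Field K] [Finite K], Nat.card (A →+* K) ≤ C * Nat.card K ^ δ)

lemma pow_mono {K : Type} [Field K] [Finite K] {a b : ℕ} (h : a ≤ b) :
    Nat.card K ^ a ≤ Nat.card K ^ b :=
  Nat.pow_le_pow_right Nat.card_pos h

/-- quotients of a domain of characteristic zero -/
lemma quot_char0 {A B : Type} [CommRing A] [IsDomain A] [CharZero A] [Algebra.FiniteType ℤ A]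
    [CommRing B] [IsDomain B] {π : A →+* B} (hπ : Function.Surjective π)
    {δ : ℕ} (h : Algebra.trdeg ℤ A = δ) {D : ℕ} (hD : δ ≤ D) (hB : Bd D)
    {c : A} (hc : c ≠ 0) (hcP : π c = 0) :
    (∃ ε C : ℕ, ε + 1 ≤ δ ∧ ∀ (K : Type) [Field K] [Finite K],
        Nat.card (B →+* K) ≤ C * Nat.card K ^ ε) ∨
    (∃ p C : ℕ, p.Prime ∧ CharP B p ∧ ∀ (K : Type) [Field K] [Finite K],
        Nat.card (B →+* K) ≤ C * Nat.card K ^ δ) := by
  have hft := ft_surj hπ
  rcases char_cases B with h0 | ⟨p, hp, hcp⟩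
  · left
    obtain ⟨ε, hε, hεδ⟩ := dimB_same (F := ℤ) (A := A) (B := B)
      (RingHom.injective_int (algebraMap ℤ B)) π.toIntAlgHom hπ ⟨c, hc, hcP⟩ h
    obtain ⟨C, hC⟩ := hB.1 B ε hε (hεδ.trans hD)
    exact ⟨ε, C, hεδ, hC⟩
  · right
    have : Fact p.Prime := ⟨hp⟩
    let _ : Algebra (ZMod p) B := ZMod.algebra _ p
    have hft' : Algebra.FiniteType (ZMod p) B :=
      Algebra.FiniteType.of_restrictScalars_finiteType ℤ (ZMod p) B
    obtain ⟨ε, hε, hεδ⟩ := dimB_mixed (A := A) (B := B) (p := p) π hπ h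
    obtain ⟨C, hC⟩ := hB.2 p B ε hε (hεδ.trans hD)
    refine ⟨p, C, hp, hcp, fun K _ _ => (hC K).trans ?_⟩
    exact Nat.mul_le_mul_left _ (pow_mono hεδ)

lemma subsingleton_int (K : Type) [Field K] : Subsingleton (ℤ →+* K) := inferInstance

lemma subsingleton_zmod (p : ℕ) (K : Type) [Field K] : Subsingleton (ZMod p →+* K) :=
  inferInstance

lemma bd_aux (D : ℕ) : Bd D := by
  induction D using Nat.strong_induction_on with
  | _ D IH =>
    refine ⟨?_, ?_⟩
    · intro A _ _ _ _ δ hδ hD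
      obtain ⟨c, hc, C, hC⟩ := dimA (F := ℤ) (A := A) (RingHom.injective_int (algebraMap ℤ A))
        (fun K _ => subsingleton_int K) hδ
      apply bd_step hC
      intro P hP hcP
      rcases quot_char0 (π := Ideal.Quotient.mk P) Ideal.Quotient.mk_surjective hδ (le_refl δ)
        (IH δ (by omega)) hc (Ideal.Quotient.eq_zero_iff_mem.2 hcP) with
        ⟨ε, C', hεδ, hC'⟩ | ⟨p, C', -, -, hC'⟩
      · refine ⟨C', fun K _ _ => (hC' K).trans ?_⟩
        exact Nat.mul_le_mul_left _ (pow_mono (by omega))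
      · exact ⟨C', hC'⟩
    · intro p _ A _ _ _ _ δ hδ hD
      have hftZ : Algebra.FiniteType ℤ A := by
        have h1 : Algebra.FiniteType ℤ (ZMod p) :=
          Algebra.FiniteType.of_surjective (Algebra.ofId ℤ (ZMod p)) (by
            intro x
            obtain ⟨n, hn⟩ := ZMod.intCast_surjective x
            exact ⟨n, by simpa [Algebra.ofId_apply] using hn⟩)
        exact Algebra.FiniteType.trans h1 inferInstance
      obtain ⟨c, hc, C, hC⟩ := dimA (F := ZMod p) (A := A) (algebraMap (ZMod p) A).injective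
        (fun K _ => subsingleton_zmod p K) hδ
      apply bd_step hC
      intro P hP hcP
      have hft' : Algebra.FiniteType (ZMod p) (A ⧸ P) :=
        Algebra.FiniteType.of_surjective (Ideal.Quotient.mkₐ (ZMod p) P)
          (Ideal.Quotient.mkₐ_surjective (ZMod p) P)
      obtain ⟨ε, hε, hεδ⟩ := dimB_same (F := ZMod p) (A := A) (B := A ⧸ P)
        (algebraMap (ZMod p) (A ⧸ P)).injective (Ideal.Quotient.mkₐ (ZMod p) P)
        (Ideal.Quotient.mkₐ_surjective (ZMod p) P) ⟨c, hc, by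
          rw [Ideal.Quotient.mkₐ_eq_mk]
          exact Ideal.Quotient.eq_zero_iff_mem.2 hcP⟩ hδ
      obtain ⟨C', hC'⟩ := (IH ε (by omega)).2 p (A ⧸ P) ε hε le_rfl
      refine ⟨C', fun K _ _ => (hC' K).trans ?_⟩
      exact Nat.mul_le_mul_left _ (pow_mono (by omega))

end DimCAux

open DimCAux

/-- Upper bound for the number of points, by induction on the dimension `D` (transcendence degree,
plus one in characteristic zero). Proof. Let `A` be as in the first (second) statement, `F = ℤ`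
(`F = ZMod p`), `c`, `C` from `dimA` (`F → A` is injective). The number of `φ` with `φ(c) ≠ 0` is
`≤ C (#K) ^ δ`. Every `φ` with `φ(c) = 0` factors through `A / P` for one of the primes `P` of
`exists_cover c`, so their number is at most the sum of the numbers of points of the domains
`A / P`. Let `P` be one of them (`P ≠ 0`). If `A / P` has the same characteristic as `A`, its
transcendence degree `ε` satisfies `ε + 1 ≤ δ` (`dimB_same`), so the induction hypothesis applies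
and gives `≤ C' (#K) ^ ε ≤ C' (#K) ^ δ`. If `A` has characteristic `0` and `A / P` has characteristic
`p > 0`, then `ε ≤ δ` (`dimB_mixed`), its dimension is `ε ≤ δ < δ + 1`, the induction hypothesis
applies again. (`Nat.card K ≥ 1`; all sets of homomorphisms are finite because `A` is finitely
generated, so cardinalities of covers add up.) -/
theorem bd_all (D : ℕ) :
    (∀ (A : Type) [CommRing A] [IsDomain A] [CharZero A] [Algebra.FiniteType ℤ A] (δ : ℕ),
      Algebra.trdeg ℤ A = δ → δ + 1 ≤ D → ∃ C : ℕ, ∀ (K : Type) [Field K] [Finite K],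
        Nat.card (A →+* K) ≤ C * Nat.card K ^ δ) ∧
    (∀ (p : ℕ) [Fact p.Prime] (A : Type) [CommRing A] [IsDomain A] [Algebra (ZMod p) A]
      [Algebra.FiniteType (ZMod p) A] (δ : ℕ), Algebra.trdeg (ZMod p) A = δ → δ ≤ D →
      ∃ C : ℕ, ∀ (K : Type) [Field K] [Finite K], Nat.card (A →+* K) ≤ C * Nat.card K ^ δ) :=
  bd_aux D

/-- Upper bound for the number of points. -/
theorem FGD.hN_le {A : Type} [CommRing A] {δ : ℕ} (hA : FGD A δ) :
    ∃ C : ℕ, ∀ x : Nat.Primes × ℕ, x.2 ≠ 0 → hN A x ≤ C * ((x.1 : ℕ) ^ x.2) ^ δ := by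
  obtain ⟨h1, h2, h3, h4⟩ := hA
  obtain ⟨C, hC⟩ := (bd_all (δ + 1)).1 A δ h4 le_rfl
  refine ⟨C, fun x hx => ?_⟩
  have : Fact (x.1 : ℕ).Prime := ⟨x.1.2⟩
  have h5 := hC (GF x.1 x.2)
  rw [card_GF hx] at h5
  exact h5

/-- Upper bound for the number of points of a proper closed subset. Proof: `exists_cover g`, for
every `P` in the cover: if `A / P` has characteristic zero, `bd_all` and `dimB_same` give
`hN (A/P) x ≤ C q ^ (δ - 1)` for all `x`; if it has characteristic `ℓ > 0`, then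
`hN (A/P) x ≤ C q ^ δ` by `dimB_mixed`, and it is `0` if `x.1 ≠ ℓ`. Let `N` be the product of these
`ℓ`. -/
theorem FGD.hV_le {A : Type} [CommRing A] {δ : ℕ} (hA : FGD A δ) {g : A} (hg : g ≠ 0) :
    ∃ C N : ℕ, N ≠ 0 ∧ ∀ x : Nat.Primes × ℕ, x.2 ≠ 0 →
      hV A g x ≤ C * ((x.1 : ℕ) ^ x.2) ^ δ ∧
      (¬ (x.1 : ℕ) ∣ N → (x.1 : ℕ) ^ x.2 * hV A g x ≤ C * ((x.1 : ℕ) ^ x.2) ^ δ) := by
  classical
  obtain ⟨h1, h2, h3, h4⟩ := hA
  have hnoe : IsNoetherianRing A := Algebra.FiniteType.isNoetherianRing ℤ A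
  obtain ⟨s, hs1, hs2⟩ := exists_cover g
  -- one prime
  have hP : ∀ P : Ideal A, P ∈ s → ∃ C N : ℕ, N ≠ 0 ∧ ∀ x : Nat.Primes × ℕ, x.2 ≠ 0 →
      Nat.card (A ⧸ P →+* GF x.1 x.2) ≤ C * ((x.1 : ℕ) ^ x.2) ^ δ ∧
      (¬ (x.1 : ℕ) ∣ N → (x.1 : ℕ) ^ x.2 * Nat.card (A ⧸ P →+* GF x.1 x.2) ≤
        C * ((x.1 : ℕ) ^ x.2) ^ δ) := by
    intro P hPs
    obtain ⟨hPp, hgP⟩ := hs1 P hPs
    rcases quot_char0 (π := Ideal.Quotient.mk P) Ideal.Quotient.mk_surjective h4 (le_refl δ)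
      (bd_aux δ) hg (Ideal.Quotient.eq_zero_iff_mem.2 hgP) with
      ⟨ε, C, hεδ, hC⟩ | ⟨p, C, hp, hcp, hC⟩
    · refine ⟨C, 1, one_ne_zero, fun x hx => ?_⟩
      have : Fact (x.1 : ℕ).Prime := ⟨x.1.2⟩
      have h5 := hC (GF x.1 x.2)
      rw [card_GF hx] at h5
      have hq : 0 < (x.1 : ℕ) ^ x.2 := pow_pos x.1.2.pos _
      refine ⟨h5.trans (Nat.mul_le_mul_left _ (Nat.pow_le_pow_right hq (by omega))), fun _ => ?_⟩
      calc (x.1 : ℕ) ^ x.2 * Nat.card (A ⧸ P →+* GF x.1 x.2)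
          ≤ (x.1 : ℕ) ^ x.2 * (C * ((x.1 : ℕ) ^ x.2) ^ ε) := Nat.mul_le_mul_left _ h5
        _ = C * ((x.1 : ℕ) ^ x.2) ^ (ε + 1) := by ring
        _ ≤ C * ((x.1 : ℕ) ^ x.2) ^ δ :=
          Nat.mul_le_mul_left _ (Nat.pow_le_pow_right hq hεδ)
    · refine ⟨C, p, hp.ne_zero, fun x hx => ?_⟩
      have : Fact (x.1 : ℕ).Prime := ⟨x.1.2⟩
      have h5 := hC (GF x.1 x.2)
      rw [card_GF hx] at h5
      refine ⟨h5, fun hdvd => ?_⟩
      have hempty : IsEmpty (A ⧸ P →+* GF x.1 x.2) := by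
        refine ⟨fun φ => ?_⟩
        apply hdvd
        have e1 : ((p : ℕ) : A ⧸ P) = 0 := CharP.cast_eq_zero _ p
        have e2 : ((p : ℕ) : GF x.1 x.2) = 0 := by
          rw [← map_natCast φ p, e1, map_zero]
        exact (CharP.cast_eq_zero_iff (GF x.1 x.2) (x.1 : ℕ) p).1 e2
      rw [Nat.card_eq_zero.2 (Or.inl hempty), mul_zero]
      exact Nat.zero_le _
  choose! C N hN0 hCN using hP
  refine ⟨∑ P ∈ s, C P, ∏ P ∈ s, N P, Finset.prod_ne_zero_iff.2 hN0, fun x hx => ?_⟩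
  have h5 : hV A g x ≤ ∑ P ∈ s, Nat.card (A ⧸ P →+* GF x.1 x.2) := by
    have : Fact (x.1 : ℕ).Prime := ⟨x.1.2⟩
    have : Finite (GF x.1 x.2) := inferInstance
    exact card_zero_le hs2 (GF x.1 x.2)
  refine ⟨?_, fun hdvd => ?_⟩
  · rw [Finset.sum_mul]
    exact h5.trans (Finset.sum_le_sum (fun P hPs => (hCN P hPs x hx).1))
  · rw [Finset.sum_mul]
    refine (Nat.mul_le_mul_left _ h5).trans ?_
    rw [Finset.mul_sum]
    refine Finset.sum_le_sum (fun P hPs => (hCN P hPs x hx).2 ?_)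
    intro h
    exact hdvd (h.trans (Finset.dvd_prod_of_mem N hPs))

end Pool.Agent.SZ
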